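import Pool.Agent.H79.Thr.RSMain

/-!
# rs `k`-colourability is NP-complete for maximum degree `O(√(k log k))`

So the threshold `L_rs^(k)` is at most `C √(k log k)`; with the known lower bound `√k` this gives
its order of growth up to the factor `√(log k)`. The upper bound known before was `k - 1`. (Almeter,
Demircan, Kallmeyer, Milans, Winslow: there are graphs of maximum degree `d` that need
`Ω(d² / log d)` colours, so `√(k log k)` is also the smallest order of degree for which graphs
without rs `k`-colouring are known to exist.)

Idea of the proof. (1) There is a graph of maximum degree `O(√(k log k))` with exactly one
rs `k`-colouring. Its vertices are `k - 1` levels of two vertices and a small top class. A vertex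
picks at most one neighbour in every lower level, at random, with probability `√(λ / j)` for
level `j`, `λ = C log k`; consecutive levels, nearby levels and levels with the same residue modulo
`√k` are joined such that their order is forced. If a colouring differs from the intended one, there
are many pairs of vertices of the same colour in different levels, and every intact level above
such a pair gives an independent test: if its colour is larger, no vertex of it may be adjacent to
both vertices of the pair, and if it is smaller, the lower vertex of the pair may not be adjacent to
both of its vertices. The order of almost all intact levels is forced, so there are few patterns. (2) A
vertex joined to two vertices of the colour `c` has a colour less than `c`; with a suitable vertex `y`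
of the gadget its colour is in `{0, 1, 2}`, and two vertices joined to the same `y` have different
colours. So 3-colourability of graphs of degree at most 5 reduces to rs `k`-colourability.
-/

namespace Pool.Agent.Results.MP_9384e7_lc.RSThreshold

open Pool.Agent.H79.Thr

/-- There is a constant `C` such that for all large `k` and all `d ≥ C √(k log k)`, rs
`k`-colourability is NP-complete for graphs of maximum degree at most `d`. -/
theorem result : ∃ C : ℝ, 0 < C ∧ ∃ k₀ : ℕ, ∀ k : ℕ, k₀ ≤ k → ∀ d : ℕ,
    C * √(k * Real.log k) ≤ d → NPCompleteOn d (fun _ G => RSColourable k G) := rs_threshold

end Pool.Agent.Results.MP_9384e7_lc.RSThreshold
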