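import Pool.Agent.H23.RS.Fin

/-!
# Graphs of maximum degree `O(√(k log k))` have rs `k`-colourings

So the threshold `L_rs^(k)` is greater than `c √(k log k)`; with the upper bound `C √(k log k)`
(hand-in `RSThreshold`) this gives the order of growth of `L_rs^(k)`. In other terms: every graph of
maximum degree `d` has an rs colouring (2-ranking) with `O(d² / log d)` colours (`rs_all` in
`Pool.Agent.H23.RS.Fin`), which is the right order by the lower bound of Almeter, Demircan,
Kallmeyer, Milans and Winslow; the upper bound known before was `d² + 1`.

Idea of the proof. (1) Partition the vertices at random into about `d² / D'` blocks, `D' = d^(small)`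
(local lemma). With few exceptions every vertex `v` has at most two neighbours in every block and none
in its own block. (2) Every vertex `v` gets a random epoch `ξ(v) ∈ {0, …, R - 1}`, `R ≈ log d`; smaller
epochs get smaller colours. Two vertices of the same block and epoch `i` are in conflict only if a
common neighbour `v` has `ξ(v) ≥ i`. (3) In every block the vertices are coloured in a fixed order, each
with the first free colour of a palette of `O((1 + log (R / i)) D / log D)` colours, `D = D' / R`. When
`u` is coloured, the epochs of the common neighbours of `u` and its predecessors are fresh random
numbers, and at least half of the colours have only `O(log D / log (R / i))` such common neighbours, so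
each of them is free with probability at least `D^(-1/2)`: `u` fails with probability at most
`exp (- D^(1/2))`. (4) A second local lemma, with events of probability `exp (- D'^(1 + ε))`, bounds the
number of the failing vertices in every second neighbourhood. The exceptional and the failing
vertices get the smallest colours, different ones at distance at most two.
-/

namespace Pool.Agent.Results.MP_9384e7_lc.RSUpper

open Pool.Agent.H79.Thr

/-- There is a constant `c > 0` such that for all large `k` and all `d ≤ c √(k log k)` every finite
graph of maximum degree at most `d` has an rs `k`-colouring; so rs `k`-colourability is not NP-complete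
for graphs of maximum degree at most `d`. -/
theorem result : ∃ c : ℝ, 0 < c ∧ ∃ k₀ : ℕ, ∀ k : ℕ, k₀ ≤ k → ∀ d : ℕ,
    (d : ℝ) ≤ c * √(k * Real.log k) →
    (∀ (V : Type) (G : SimpleGraph V), Finite V → MaxDegLE G d → RSColourable k G) ∧
      ¬ NPCompleteOn d (fun _ G => RSColourable k G) := by
  obtain ⟨c, hc, k₀, h⟩ := Pool.Agent.H23.RS.rs_thr
  refine ⟨c, hc, k₀, fun k hk d hd => ⟨fun V G hV hG => ?_, ?_⟩⟩
  · have := Fintype.ofFinite V
    exact h k hk d hd V this G hG
  · exact Pool.Agent.H23.RS.not_npComplete fun n G hG => h k hk d hd (Fin n) inferInstance G hG

end Pool.Agent.Results.MP_9384e7_lc.RSUpper
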