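import Pool.Agent.H82.SF.Gadget
import Pool.Agent.H82.SF.Low

/-!
# The threshold for star 4-colourability is three: `L_s^(4) = 3`

Idea of the proof. (1) An equality gadget of maximum degree three: the vertices `0, …, 8`, the edges
`01, 12, 13, 24, 34, 25, 36, 56, 57, 67, 48`. In every star `4`-colouring the vertices `0` and `8`, both of
degree one, have the same colour (checked by an exhaustive search in the kernel); all pairs of
different colours are possible for `0` and its neighbour, and the other neighbours of `1` and `4` do
not have the colour of `0` and `8`. (2) Copies of the gadget in a row, the last terminal of a copy
identified with the first terminal of the next one, carry the colour of a vertex to many vertices of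
degree two; an edge between two such vertices says that the colours are different. So
`4`-colourability reduces to star `4`-colourability of graphs of maximum degree three. In the other
direction the neighbours of the terminals of colour `c` get the colour `c + 1`, so no bicoloured path
crosses a terminal. (3) `4`-colourability is NP-hard (Cook-Levin theorem, 3-colourability).
(4) Graphs of maximum degree two are star `4`-colourable: give the fourth colour to one vertex of every
component, the rest is a union of paths.
-/

namespace Pool.Agent.Results.MP_9384e7_lc.StarFour

open Pool.Agent.H79.Thr

/-- Star `4`-colourability is NP-complete for graphs of maximum degree at most `d` exactly when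
`d ≥ 3`; every finite graph of maximum degree at most two is star `4`-colourable. -/
theorem result :
    (∀ d : ℕ, NPCompleteOn d (fun _ G => StarColourable 4 G) ↔ 3 ≤ d) ∧
    ∀ (n : ℕ) (G : SimpleGraph (Fin n)), MaxDegLE G 2 → StarColourable 4 G := by
  refine ⟨fun d => ⟨fun h => ?_, fun h => Pool.Agent.H82.SF.npc_star4 h⟩, fun n G hG =>
    Pool.Agent.H82.SF.star4_of_deg2 hG⟩
  by_contra hd
  exact Pool.Agent.H82.SF.not_npc_star4 (by omega) h

end Pool.Agent.Results.MP_9384e7_lc.StarFour
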