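import Pool.Agent.H79.Thr.StarMain

/-!
# Star `k`-colourability is NP-complete for maximum degree `O(k^(2/3) (log k)^(1/3))`

So the threshold `L_s^(k)` is at most `C k^(2/3) (log k)^(1/3)`; with the known lower bound
`0.33 k^(2/3)` this gives its order of growth up to the factor `(log k)^(1/3)`. The upper bounds known
before were linear in `k` (`k`, and `k - 1` for `k ≥ 7`).

Idea of the proof. (1) A random graph on `k` classes of two vertices, with at most two random
edges between any two classes and about `k^(2/3) (log k)^(1/3)` edges at every vertex, has only
one star `k`-colouring up to the names of the colours: if a colouring has `m` classes that are not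
colour classes, one finds at least `m / 8` pairs of vertices of the same colour in different classes,
pairwise in different classes, and about `m k` independent tests (two such pairs, or such a pair and
an intact class), each of which fails only if less than three of the four possible edges are there;
a union bound over the `k^O(m)` patterns. (2) Copies of this graph in a row carry the colour of a
vertex to many terminals, so `k`-colourability reduces to star `k`-colourability with degrees at
most `2 D + 1`; in the other direction the colours of consecutive copies can be chosen such that
no bicoloured path crosses a terminal, as `4 D + 5 ≤ k`. (3) `k`-colourability is NP-hard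
(Cook-Levin theorem, 3-colourability).
-/

namespace Pool.Agent.Results.MP_9384e7_lc.StarThreshold

open Pool.Agent.H79.Thr

/-- There is a constant `C` such that for all large `k` and all `d ≥ C k^(2/3) (log k)^(1/3)`, star
`k`-colourability is NP-complete for graphs of maximum degree at most `d`. -/
theorem result : ∃ C : ℝ, 0 < C ∧ ∃ k₀ : ℕ, ∀ k : ℕ, k₀ ≤ k → ∀ d : ℕ,
    C * ((k : ℝ) ^ (2 / 3 : ℝ) * (Real.log k) ^ (1 / 3 : ℝ)) ≤ d →
    NPCompleteOn d (fun _ G => StarColourable k G) := star_threshold

end Pool.Agent.Results.MP_9384e7_lc.StarThreshold
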